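import Pool.Agent.helper40.FI3.SpecLA3

set_option autoImplicit false

namespace Pool.Agent.FI3

open Finset Pool.Agent.GR Pool.Agent.FI

theorem LKM3 (hLPC3 : LPC3_stmt) (hLTO3 : LTO3_stmt) : LKM3_stmt := by
  intro p D _ _ _ X _ Z Y I g m A hg hfx hA
  have hPC := hLPC3 p D X Z Y I g m A hg hfx hA
  have hTO := hLTO3 p D X Z Y I g m A hg hfx hA
  have hidx0 : Y.index ≠ 0 := Subgroup.index_ne_zero_of_finite
  have hidx1 : Y.index ≠ 1 := fun h => hg.ne (Subgroup.index_eq_one.1 h)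
  have hidx : 2 ≤ Y.index := by omega
  have hq : (0 : ℤ) < (Y.index : ℤ) - 1 := by
    have : (2 : ℤ) ≤ (Y.index : ℤ) := by exact_mod_cast hidx
    linarith
  set Q : X → ℤ := fun χ => ((Y.index : ℤ) - 1 + Nat.card I) * ∑ l ∈ ov Y m, A χ l ^ 2 -
    (∑ l ∈ ov Y m, A χ l) ^ 2 with hQ
  set K : Finset X := lK Y m A (lX Z m g) with hK
  have hsub : K ⊆ lX Z m g := fun χ hχ => (mem_lK.1 hχ).1
  have hsum : ∑ χ ∈ K, Q χ = ((Y.index : ℤ) - 1) * (((Y.index : ℤ) - 1) + (Nat.card I : ℤ) ^ 2) := by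
    rw [← hTO]
    refine Finset.sum_subset hsub ?_
    intro χ hχ hn
    have h0 : ∀ l ∈ ov Y m, A χ l = 0 := by
      intro l hl
      by_contra h
      exact hn (mem_lK.2 ⟨hχ, l, hl, h⟩)
    have e1 : ∑ l ∈ ov Y m, A χ l ^ 2 = 0 :=
      Finset.sum_eq_zero fun l hl => by rw [h0 l hl]; norm_num
    have e2 : ∑ l ∈ ov Y m, A χ l = 0 := Finset.sum_eq_zero h0
    simp only [hQ, e1, e2]
    ring
  have hle : ∀ χ ∈ K, ((Y.index : ℤ) - 1) * Nat.card I ≤ Q χ := by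
    intro χ hχ
    exact (hPC χ (mem_lK.1 hχ).2).1
  have hsumle : ∑ _χ ∈ K, ((Y.index : ℤ) - 1) * (Nat.card I : ℤ) ≤ ∑ χ ∈ K, Q χ :=
    Finset.sum_le_sum hle
  have hconst : ∑ _χ ∈ K, ((Y.index : ℤ) - 1) * (Nat.card I : ℤ) =
      ((Y.index : ℤ) - 1) * ((Nat.card I : ℤ) * (K.card : ℤ)) := by
    rw [Finset.sum_const, nsmul_eq_mul]
    ring
  have hcast : ((Y.index - 1 : ℕ) : ℤ) = (Y.index : ℤ) - 1 := by
    rw [Nat.cast_sub (by omega)]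
    norm_num
  refine ⟨?_, ?_⟩
  · rw [hconst, hsum] at hsumle
    have h1 : (Nat.card I : ℤ) * (K.card : ℤ) ≤ ((Y.index : ℤ) - 1) + (Nat.card I : ℤ) ^ 2 :=
      le_of_mul_le_mul_left hsumle hq
    rw [← hcast] at h1
    exact_mod_cast h1
  · intro heq χ hχ
    have h1 : (Nat.card I : ℤ) * (K.card : ℤ) = ((Y.index : ℤ) - 1) + (Nat.card I : ℤ) ^ 2 := by
      rw [← hcast]
      exact_mod_cast heq
    have h2 : ∑ _χ ∈ K, ((Y.index : ℤ) - 1) * (Nat.card I : ℤ) = ∑ χ ∈ K, Q χ := by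
      rw [hconst, hsum, h1]
    have h3 := (Finset.sum_eq_sum_iff_of_le hle).1 h2 χ hχ
    exact (hPC χ (mem_lK.1 hχ).2).2 h3.symm

end Pool.Agent.FI3
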